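import Pool.Agent.TH152.BB.Stm

/-!
# The evaluation homomorphism (job BB-EV, helper902 for helper152)
-/

set_option autoImplicit false

namespace Pool.Agent.TH152.BB

open Pool.Agent.TH952 (Hah)

namespace EV

variable {k K : Type} [Field k] [Field K]

/-- the series without coefficients below `a` -/
def Z (K : Type) [Field K] (a : ℚ) : AddSubgroup (Hah K) where
  carrier := {z | ∀ γ < a, z.coeff γ = 0}
  zero_mem' := fun γ _ => by simp
  add_mem' := fun {x y} hx hy γ hγ => by
    rw [HahnSeries.coeff_add, hx γ hγ, hy γ hγ, add_zero]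
  neg_mem' := fun {x} hx γ hγ => by
    rw [HahnSeries.coeff_neg, hx γ hγ, neg_zero]

lemma mem_Z {a : ℚ} {z : Hah K} : z ∈ Z K a ↔ ∀ γ < a, z.coeff γ = 0 := Iff.rfl

lemma Z_mul {a b : ℚ} {z w : Hah K} (hz : z ∈ Z K a) (hw : w ∈ Z K b) : z * w ∈ Z K (a + b) := by
  rw [mem_Z] at *
  intro γ hγ
  rw [HahnSeries.coeff_mul]
  apply Finset.sum_eq_zero
  intro p hp
  rw [Finset.mem_antidiagonal] at hp
  rcases lt_or_ge p.1 a with h | h
  · exact absurd (hz _ h) hp.1
  · have h2 : p.2 < b := by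
      have := hp.2.2
      linarith
    exact absurd (hw _ h2) hp.2.1

lemma one_mem : (1 : Hah K) ∈ Z K 0 := by
  intro γ hγ
  rw [HahnSeries.coeff_one, if_neg hγ.ne]

lemma Z_pow {a : ℚ} {z : Hah K} (hz : z ∈ Z K a) (n : ℕ) : z ^ n ∈ Z K (n * a) := by
  induction n with
  | zero =>
    rw [pow_zero, Nat.cast_zero, zero_mul]
    exact one_mem
  | succ n ih =>
    rw [pow_succ]
    have := Z_mul ih hz
    rw [show ((n + 1 : ℕ) : ℚ) * a = n * a + a by push_cast; ring]
    exact this

lemma eq_of {μ : ℚ} (hμ : 0 < μ) {x y : Hah K} (h : ∀ N : ℕ, x - y ∈ Z K (N * μ)) : x = y := by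
  ext γ
  obtain ⟨N, hN⟩ := exists_nat_gt (γ / μ)
  have h1 := h N γ (by rwa [div_lt_iff₀ hμ] at hN)
  rw [HahnSeries.coeff_sub] at h1
  exact sub_eq_zero.1 h1

lemma glue {μ : ℚ} (hμ : 0 < μ) (u : ℕ → Hah K)
    (hu : ∀ N n : ℕ, N ≤ n → u n - u N ∈ Z K (N * μ)) :
    ∃ x : Hah K, ∀ N : ℕ, x - u N ∈ Z K (N * μ) := by
  have hν : ∀ q : ℚ, q < (⌊q / μ⌋₊ + 1 : ℕ) * μ := by
    intro q
    rw [← div_lt_iff₀ hμ]
    push_cast
    exact Nat.lt_floor_add_one _
  set c : ℚ → K := fun q => (u (⌊q / μ⌋₊ + 1)).coeff q with hc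
  have hcn : ∀ n : ℕ, ∀ q : ℚ, q < n * μ → c q = (u n).coeff q := by
    intro n q hq
    rw [hc]
    show (u (⌊q / μ⌋₊ + 1)).coeff q = (u n).coeff q
    rcases le_total (⌊q / μ⌋₊ + 1) n with h | h
    · have := hu _ _ h q (hν q)
      rw [HahnSeries.coeff_sub] at this
      exact (sub_eq_zero.1 this).symm
    · have := hu _ _ h q hq
      rw [HahnSeries.coeff_sub] at this
      exact sub_eq_zero.1 this
  have hpwo : (Function.support c).IsPWO := by
    rw [Set.isPWO_iff_isWF]
    rw [Set.isWF_iff_no_descending_seq]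
    intro f hf hmem
    set N := ⌊f 0 / μ⌋₊ + 1
    have h1 : ∀ n, f n ∈ Function.support (u N).coeff := by
      intro n
      have h2 : f n < N * μ := lt_of_le_of_lt (hf.antitone (Nat.zero_le n)) (hν _)
      have h3 := hmem n
      rw [Function.mem_support] at h3 ⊢
      rwa [← hcn N _ h2]
    have h4 := (u N).isPWO_support
    have h5 : (u N).support.IsWF := h4.isWF
    rw [Set.isWF_iff_no_descending_seq] at h5
    exact h5 f hf h1
  refine ⟨⟨c, hpwo⟩, fun N γ hγ => ?_⟩
  rw [HahnSeries.coeff_sub]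
  show c γ - (u N).coeff γ = 0
  rw [hcn N γ hγ, sub_self]

lemma io_mem (j : k →+* K) (g : PowerSeries k) : io j g ∈ Z K 0 := by
  intro γ hγ
  show j ((HahnSeries.ofPowerSeries ℚ k g).coeff γ) = 0
  have : (HahnSeries.ofPowerSeries ℚ k g).coeff γ = 0 := by
    rw [HahnSeries.ofPowerSeries_apply]
    apply HahnSeries.embDomain_of_notMem_range
    rintro ⟨n, hn⟩
    have h : (n : ℚ) = γ := hn
    have h2 : (0 : ℚ) ≤ n := Nat.cast_nonneg n
    linarith
  rw [this, map_zero]

/-- the evaluation of polynomials -/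
noncomputable def ev (j : k →+* K) (τ : Hah K) : Polynomial (PowerSeries k) →+* Hah K :=
  Polynomial.eval₂RingHom (io j) τ

lemma ev_C (j : k →+* K) (τ : Hah K) (g : PowerSeries k) : ev j τ (Polynomial.C g) = io j g := by
  unfold ev
  rw [Polynomial.coe_eval₂RingHom, Polynomial.eval₂_C]

lemma ev_X (j : k →+* K) (τ : Hah K) : ev j τ Polynomial.X = τ := by
  unfold ev
  rw [Polynomial.coe_eval₂RingHom, Polynomial.eval₂_X]

lemma ev_mem (j : k →+* K) {τ : Hah K} {μ : ℚ} (hμ : 0 < μ) (hτ : τ ∈ Z K μ)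
    (P : Polynomial (PowerSeries k)) : ev j τ P ∈ Z K 0 := by
  induction P using Polynomial.induction_on with
  | C a =>
    rw [ev_C]
    exact io_mem j a
  | add P Q hP hQ =>
    rw [map_add]
    exact add_mem hP hQ
  | monomial n a ih =>
    have e1 : Polynomial.C a * Polynomial.X ^ (n + 1) =
        (Polynomial.C a * Polynomial.X ^ n) * Polynomial.X := by ring
    rw [e1, map_mul, ev_X]
    have := Z_mul ih hτ
    intro γ hγ
    exact this γ (by linarith)

lemma ev_dvd (j : k →+* K) {τ : Hah K} {μ : ℚ} (hμ : 0 < μ) (hτ : τ ∈ Z K μ) (N : ℕ)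
    (P : Polynomial (PowerSeries k)) (h : ∀ d < N, P.coeff d = 0) : ev j τ P ∈ Z K (N * μ) := by
  rw [← Polynomial.X_pow_dvd_iff] at h
  obtain ⟨R, rfl⟩ := h
  rw [map_mul, map_pow, ev_X]
  have := Z_mul (Z_pow hτ N) (ev_mem j hμ hτ R)
  rwa [add_zero] at this

lemma exists_ev (j : k →+* K) {τ : Hah K} {μ : ℚ} (hμ : 0 < μ) (hτ : τ ∈ Z K μ) (f : O2 k) :
    ∃ x : Hah K, ∀ N : ℕ, x - ev j τ (PowerSeries.trunc N f) ∈ Z K (N * μ) := by
  apply glue hμ
  intro N n hn
  rw [← map_sub]
  apply ev_dvd j hμ hτ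
  intro d hd
  rw [Polynomial.coeff_sub, PowerSeries.coeff_trunc, PowerSeries.coeff_trunc, if_pos hd,
    if_pos (by omega), sub_self]

end EV

open EV in
theorem ev_all : S_EV := by
  intro k K _ _ j τ hτ0 hτ1
  set μ := τ.order with hμ'
  have hτ : τ ∈ Z K μ := fun γ hγ => HahnSeries.coeff_eq_zero_of_lt_order hγ
  have hμ : 0 < μ := by
    by_contra hneg
    have h1 := hτ0 μ (not_lt.1 hneg)
    exact hτ1 (HahnSeries.coeff_order_eq_zero.1 h1)
  choose e he using fun f : O2 k => exists_ev j hμ hτ f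
  have hP : ∀ (f : O2 k) (P : Polynomial (PowerSeries k)) (N : ℕ),
      (∀ d < N, PowerSeries.coeff d f = P.coeff d) → e f - ev j τ P ∈ Z K (N * μ) := by
    intro f P N h
    have h1 := he f N
    have h2 : ev j τ (PowerSeries.trunc N f - P) ∈ Z K (N * μ) := by
      apply ev_dvd j hμ hτ
      intro d hd
      rw [Polynomial.coeff_sub, PowerSeries.coeff_trunc, if_pos hd, h d hd, sub_self]
    have h3 := add_mem h1 h2
    rw [map_sub] at h3
    have e1 : e f - ev j τ (PowerSeries.trunc N f) + (ev j τ (PowerSeries.trunc N f) - ev j τ P) =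
      e f - ev j τ P := by ring
    rwa [e1] at h3
  have hpoly : ∀ (f : O2 k) (P : Polynomial (PowerSeries k)),
      (∀ d, PowerSeries.coeff d f = P.coeff d) → e f = ev j τ P :=
    fun f P h => eq_of hμ fun N => hP f P N fun d _ => h d
  have h0 : ∀ f, e f ∈ Z K 0 := by
    intro f
    have h1 := hP f 0 0 (fun d hd => absurd hd (Nat.not_lt_zero d))
    rwa [map_zero, sub_zero, Nat.cast_zero, zero_mul] at h1
  have hone : e 1 = 1 := by
    rw [hpoly 1 1 (fun d => by
      rw [PowerSeries.coeff_one, Polynomial.coeff_one]), map_one]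
  have hzero : e 0 = 0 := by
    rw [hpoly 0 0 (fun d => by simp), map_zero]
  have hadd : ∀ f g, e (f + g) = e f + e g := by
    intro f g
    apply eq_of hμ
    intro N
    have h1 := hP (f + g) (PowerSeries.trunc N f + PowerSeries.trunc N g) N (fun d hd => by
      rw [map_add, Polynomial.coeff_add, PowerSeries.coeff_trunc, PowerSeries.coeff_trunc,
        if_pos hd, if_pos hd])
    have h2 := add_mem (he f N) (he g N)
    have h3 := sub_mem h1 h2
    rw [map_add] at h3
    have e1 : e (f + g) - (e f + e g) =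
      e (f + g) - (ev j τ (PowerSeries.trunc N f) + ev j τ (PowerSeries.trunc N g)) -
        (e f - ev j τ (PowerSeries.trunc N f) + (e g - ev j τ (PowerSeries.trunc N g))) := by ring
    rw [e1]
    exact h3
  have hmul : ∀ f g, e (f * g) = e f * e g := by
    intro f g
    apply eq_of hμ
    intro N
    have h1 := hP (f * g) (PowerSeries.trunc N f * PowerSeries.trunc N g) N (fun d hd => by
      rw [PowerSeries.coeff_mul, Polynomial.coeff_mul]
      apply Finset.sum_congr rfl
      intro p hp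
      rw [Finset.HasAntidiagonal.mem_antidiagonal] at hp
      rw [PowerSeries.coeff_trunc, PowerSeries.coeff_trunc, if_pos (by omega), if_pos (by omega)])
    have h2 := Z_mul (he f N) (h0 g)
    have h3 := Z_mul (ev_mem j hμ hτ (PowerSeries.trunc N f)) (he g N)
    rw [add_zero] at h2
    rw [zero_add] at h3
    have h4 := sub_mem h1 (add_mem h2 h3)
    rw [map_mul] at h4
    have e1 : e (f * g) - e f * e g =
      e (f * g) - ev j τ (PowerSeries.trunc N f) * ev j τ (PowerSeries.trunc N g) -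
        ((e f - ev j τ (PowerSeries.trunc N f)) * e g +
          ev j τ (PowerSeries.trunc N f) * (e g - ev j τ (PowerSeries.trunc N g))) := by ring
    rw [e1]
    exact h4
  let E : O2 k →+* Hah K :=
    { toFun := e, map_one' := hone, map_mul' := hmul, map_zero' := hzero, map_add' := hadd }
  refine ⟨E, ?_, ?_, ?_⟩
  · intro g
    show e (PowerSeries.C g) = _
    rw [hpoly (PowerSeries.C g) (Polynomial.C g) (fun d => by
      rw [PowerSeries.coeff_C, Polynomial.coeff_C]), ev_C]
  · show e PowerSeries.X = _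
    rw [hpoly PowerSeries.X Polynomial.X (fun d => by
      rw [PowerSeries.coeff_X, Polynomial.coeff_X]
      congr 1
      exact propext eq_comm), ev_X]
  · intro f γ N hγ
    show (e f).coeff γ = (e _).coeff γ
    rw [hpoly (PowerSeries.trunc N f : Polynomial (PowerSeries k)) (PowerSeries.trunc N f)
      (fun d => by rw [Polynomial.coeff_coe])]
    have h1 := he f N γ hγ
    rw [HahnSeries.coeff_sub] at h1
    exact sub_eq_zero.1 h1

end Pool.Agent.TH152.BB
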